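import Pool.Agent.Helper37.RS.Base

/-!
Nonnegative sets whose largest element has at least half of the common denominator.
-/

set_option autoImplicit false

namespace Pool.Agent.Helper37.RH

open Finset
open scoped Pointwise

/-- integrality of a multiple -/
theorem int_mul {x : ℚ} {n : ℕ} (h : x.den ∣ n) : ∃ k : ℤ, (n : ℚ) * x = k := by
  obtain ⟨m, rfl⟩ := h
  refine ⟨m * x.num, ?_⟩
  have h1 : (x.den : ℚ) * x = x.num := Rat.den_mul_eq_num x
  push_cast
  rw [← h1]
  ring

theorem half_of {c δ : ℚ} (h1 : ∃ k : ℤ, ((2 * c.den : ℕ) : ℚ) * δ = k)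
    (h2 : ∃ k : ℤ, ((2 * c.den : ℕ) : ℚ) * (c * δ) = k) : ∃ z : ℤ, 2 * δ = z := by
  obtain ⟨k, hk⟩ := h1
  obtain ⟨m, hm⟩ := h2
  have hred : IsCoprime c.num (c.den : ℤ) := by
    rw [Int.isCoprime_iff_nat_coprime]
    simpa using c.reduced
  obtain ⟨a, b, hab⟩ := hred
  have hab' : (a : ℚ) * c.num + b * c.den = 1 := by exact_mod_cast hab
  have hc : (c.den : ℚ) * c = c.num := Rat.den_mul_eq_num c
  refine ⟨a * m + b * k, ?_⟩
  push_cast at hk hm ⊢
  rw [← hk, ← hm]
  have h3 : (a : ℚ) * (2 * c.den * (c * δ)) + b * (2 * c.den * δ) =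
      2 * δ * (a * (c.den * c) + b * c.den) := by ring
  rw [h3, hc, hab', mul_one]

section

variable {A : Finset ℚ} {c : ℚ}

/-- the pairs which are not last on their line -/
def DD (A : Finset ℚ) (c : ℚ) : Finset (ℚ × ℚ) :=
  (A ×ˢ A).filter (fun x => (x.1 + 1 / 2 ∈ A ∧ x.2 - c / 2 ∈ A) ∨ (x.1 + 1 ∈ A ∧ x.2 - c ∈ A))

theorem key (hc0 : 0 < c) (hA0 : ∀ a ∈ A, 0 ≤ a) (hAc : ∀ a ∈ A, a ≤ c)
    (hden : ∀ a ∈ A, a.den ∣ 2 * c.den) (x y : ℚ × ℚ) (hx : x ∈ A ×ˢ A) (hy : y ∈ A ×ˢ A)
    (hxy : c * x.1 + x.2 = c * y.1 + y.2) (hlt : x.1 < y.1) : x ∈ DD A c := by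
  rw [mem_product] at hx hy
  have hI : ∀ a ∈ A, ∃ k : ℤ, ((2 * c.den : ℕ) : ℚ) * a = k := fun a ha => int_mul (hden a ha)
  have hsub : ∀ a ∈ A, ∀ b ∈ A, ∃ k : ℤ, ((2 * c.den : ℕ) : ℚ) * (a - b) = k := by
    intro a ha b hb
    obtain ⟨k, hk⟩ := hI a ha
    obtain ⟨m, hm⟩ := hI b hb
    exact ⟨k - m, by rw [mul_sub, hk, hm]; push_cast; ring⟩
  have hd : c * (y.1 - x.1) = x.2 - y.2 := by linarith
  obtain ⟨z, hz⟩ := half_of (c := c) (δ := y.1 - x.1) (hsub _ hy.1 _ hx.1)
    (by rw [hd]; exact hsub _ hx.2 _ hy.2)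
  have hz0 : (0 : ℚ) < z := by
    rw [← hz]
    linarith
  have h1 : c * (y.1 - x.1) ≤ c * 1 := by
    rw [hd]
    have := hAc _ hx.2
    have := hA0 _ hy.2
    linarith
  have h2 : y.1 - x.1 ≤ 1 := le_of_mul_le_mul_left h1 hc0
  have hz2 : (z : ℚ) ≤ 2 := by
    rw [← hz]
    linarith
  have hz0' : 0 < z := by exact_mod_cast hz0
  have hz2' : z ≤ 2 := by exact_mod_cast hz2
  unfold DD
  rw [mem_filter, mem_product]
  refine ⟨hx, ?_⟩
  have hz12 : z = 1 ∨ z = 2 := by omega
  rcases hz12 with rfl | rfl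
  · left
    have h3 : y.1 - x.1 = 1 / 2 := by
      push_cast at hz
      linarith
    rw [h3] at hd
    refine ⟨?_, ?_⟩
    · have : x.1 + 1 / 2 = y.1 := by linarith
      rw [this]
      exact hy.1
    · have : x.2 - c / 2 = y.2 := by linarith
      rw [this]
      exact hy.2
  · right
    have h3 : y.1 - x.1 = 1 := by
      push_cast at hz
      linarith
    rw [h3] at hd
    refine ⟨?_, ?_⟩
    · have : x.1 + 1 = y.1 := by linarith
      rw [this]
      exact hy.1
    · have : x.2 - c = y.2 := by linarith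
      rw [this]
      exact hy.2

theorem count (hc0 : 0 < c) (hc : c ∈ A) (hA0 : ∀ a ∈ A, 0 ≤ a) (hAc : ∀ a ∈ A, a ≤ c)
    (hden : ∀ a ∈ A, a.den ∣ 2 * c.den) :
    A.card * A.card ≤ (A * A + A).card + (DD A c).card := by
  classical
  have hinj : Set.InjOn (fun x : ℚ × ℚ => c * x.1 + x.2) (((A ×ˢ A) \ DD A c : Finset (ℚ × ℚ)) : Set (ℚ × ℚ)) := by
    intro x hx y hy hxy
    rw [mem_coe, mem_sdiff] at hx hy
    simp only at hxy
    rcases lt_trichotomy x.1 y.1 with h | h | h
    · exact absurd (key hc0 hA0 hAc hden x y hx.1 hy.1 hxy h) hx.2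
    · rw [h] at hxy
      exact Prod.ext h (by linarith)
    · exact absurd (key hc0 hA0 hAc hden y x hy.1 hx.1 hxy.symm h) hy.2
  have h1 : ((A ×ˢ A) \ DD A c).card ≤ (A * A + A).card := by
    rw [← card_image_of_injOn hinj]
    apply card_le_card
    intro s hs
    rw [mem_image] at hs
    obtain ⟨x, hx, rfl⟩ := hs
    rw [mem_sdiff, mem_product] at hx
    exact add_mem_add (mul_mem_mul hc hx.1.1) hx.1.2
  have h2 : (A ×ˢ A).card ≤ ((A ×ˢ A) \ DD A c).card + (DD A c).card := by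
    have := card_le_card (s := A ×ˢ A) (t := ((A ×ˢ A) \ DD A c) ∪ DD A c) (by
      intro x hx
      rw [mem_union, mem_sdiff]
      tauto)
    exact this.trans (card_union_le _ _)
  rw [card_product] at h2
  omega

/-- an arithmetic progression -/
theorem prog (hc : c ∈ A) (hAc : ∀ a ∈ A, a ≤ c) (hR : ∀ a ∈ A, a ≠ c → a + 1 / 2 ∈ A) :
    (A + A).card ≤ 2 * A.card - 1 := by
  classical
  have hstep : ∀ n : ℕ, ∀ a ∈ A, 2 * (c - a) < n →
      ∃ j : ℕ, a = c - j / 2 ∧ ∀ i ≤ j, c - (i : ℚ) / 2 ∈ A := by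
    intro n
    induction n with
    | zero =>
      intro a ha h
      have := hAc a ha
      push_cast at h
      linarith
    | succ n ih =>
      intro a ha h
      by_cases hac : a = c
      · refine ⟨0, by rw [hac]; simp, ?_⟩
        intro i hi
        have : i = 0 := by omega
        rw [this]
        simpa using hc
      · have h1 := hR a ha hac
        obtain ⟨j, hj, hj2⟩ := ih (a + 1 / 2) h1 (by push_cast at h; linarith)
        refine ⟨j + 1, ?_, ?_⟩
        · push_cast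
          linarith
        · intro i hi
          rcases Nat.lt_or_ge i (j + 1) with h2 | h2
          · exact hj2 i (by omega)
          · have : i = j + 1 := by omega
            rw [this]
            have h3 : c - ((j + 1 : ℕ) : ℚ) / 2 = a := by
              push_cast
              linarith
            rw [h3]
            exact ha
  have hall : ∀ a ∈ A, ∃ j : ℕ, a = c - j / 2 ∧ j < A.card := by
    intro a ha
    obtain ⟨n, hn⟩ := exists_nat_gt (2 * (c - a))
    obtain ⟨j, hj, hj2⟩ := hstep n a ha hn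
    refine ⟨j, hj, ?_⟩
    have hsub : (range (j + 1)).image (fun i : ℕ => c - (i : ℚ) / 2) ⊆ A := by
      intro x hx
      rw [mem_image] at hx
      obtain ⟨i, hi, rfl⟩ := hx
      rw [mem_range] at hi
      exact hj2 i (by omega)
    have h2 := card_le_card hsub
    rw [card_image_of_injective, card_range] at h2
    · omega
    · intro i i' h
      have h3 : (i : ℚ) = i' := by
        simp only at h
        linarith
      exact_mod_cast h3
  have hsub : A + A ⊆ (range (2 * A.card - 1)).image (fun k : ℕ => 2 * c - (k : ℚ) / 2) := by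
    intro s hs
    obtain ⟨a, ha, b, hb, rfl⟩ := mem_add.mp hs
    obtain ⟨i, hi, hi2⟩ := hall a ha
    obtain ⟨j, hj, hj2⟩ := hall b hb
    rw [mem_image]
    refine ⟨i + j, ?_, ?_⟩
    · rw [mem_range]
      omega
    · rw [hi, hj]
      push_cast
      ring
  calc (A + A).card ≤ ((range (2 * A.card - 1)).image (fun k : ℕ => 2 * c - (k : ℚ) / 2)).card :=
        card_le_card hsub
    _ ≤ (range (2 * A.card - 1)).card := card_image_le
    _ = 2 * A.card - 1 := card_range _

end

end Pool.Agent.Helper37.RH
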