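import Pool.Agent.Helper37.RH.Half

/-!
Nonnegative sets whose largest element has at least half of the common denominator.
-/

set_option autoImplicit false

namespace Pool.Agent.Helper37.RH

open Finset
open scoped Pointwise
open Pool.Agent.Helper37.RS (card_add_self)

section

variable {A : Finset ℚ} {c : ℚ}

/-- the largest element has at least half of the common denominator -/
theorem half (hc : c ∈ A) (hA0 : ∀ a ∈ A, 0 ≤ a) (hAc : ∀ a ∈ A, a ≤ c)
    (hden : ∀ a ∈ A, a.den ∣ 2 * c.den) : (A + A).card ≤ (A * A + A).card := by
  classical
  have hne : A.Nonempty := ⟨c, hc⟩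
  rcases (hA0 c hc).lt_or_eq with hc0 | hc0
  swap
  · -- only the element 0
    have h1 : A = {0} := by
      ext a
      rw [mem_singleton]
      constructor
      · intro ha
        have := hA0 a ha
        have := hAc a ha
        linarith
      · rintro rfl
        rw [hc0]
        exact hc
    rw [h1]
    simp
  have hcount := count hc0 hc hA0 hAc hden
  set N := A.card with hN
  have hN1 : 1 ≤ N := hne.card_pos
  set R := A.filter (fun b => b + 1 / 2 ∈ A) with hR
  set E := A.filter (fun a => a - c / 2 ∈ A) with hE
  have hRc : c ∉ R := by
    intro h
    rw [hR, mem_filter] at h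
    have := hAc _ h.2
    linarith
  have hRsub : R ⊆ A.erase c := by
    intro b hb
    rw [mem_erase]
    refine ⟨?_, (mem_filter.1 hb).1⟩
    rintro rfl
    exact hRc hb
  have hRcard : R.card + 1 ≤ N := by
    have h1 := card_le_card hRsub
    rw [card_erase_of_mem hc] at h1
    omega
  by_cases hfull : R.card + 1 = N
  · -- an arithmetic progression
    have hReq : R = A.erase c := eq_of_subset_of_card_le hRsub (by
      rw [card_erase_of_mem hc]
      omega)
    have h1 := prog hc hAc (by
      intro a ha hne
      have h2 : a ∈ R := by
        rw [hReq, mem_erase]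
        exact ⟨hne, ha⟩
      exact (mem_filter.1 h2).2)
    have h2 : (A.image (fun x => c * x)).card = N :=
      card_image_of_injective _ (mul_right_injective₀ hc0.ne')
    have h3 := cauchy_davenport_add_of_linearOrder_isCancelAdd (s := A.image (fun x => c * x))
      (t := A) (hne.image _) hne
    rw [h2] at h3
    have h4 : A.image (fun x => c * x) + A ⊆ A * A + A := by
      apply add_subset_add_right
      intro x hx
      obtain ⟨y, hy, rfl⟩ := mem_image.1 hx
      exact mul_mem_mul hc hy
    have h5 := card_le_card h4
    omega
  -- the shifted set
  have hE2 : (E.image (fun a => a - c / 2)).card = E.card :=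
    card_image_of_injective _ (fun a b h => by
      have h' : a - c / 2 = b - c / 2 := h
      linarith)
  have hEsub : E.image (fun a => a - c / 2) ⊆ A := by
    intro x hx
    obtain ⟨a, ha, rfl⟩ := mem_image.1 hx
    exact (mem_filter.1 ha).2
  have hinter : E ∩ E.image (fun a => a - c / 2) ⊆ {c / 2} := by
    intro x hx
    rw [mem_inter] at hx
    obtain ⟨y, hy, hyx⟩ := mem_image.1 hx.2
    rw [mem_singleton]
    have h1 := hAc y (mem_filter.1 hy).1
    have h2 := hA0 _ (mem_filter.1 hx.1).2
    linarith
  have h2e : 2 * E.card ≤ N + (E ∩ E.image (fun a => a - c / 2)).card := by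
    have h1 := card_union_add_card_inter E (E.image (fun a => a - c / 2))
    have h2 : (E ∪ E.image (fun a => a - c / 2)).card ≤ N :=
      card_le_card (union_subset (filter_subset _ _) hEsub)
    rw [hE2] at h1
    omega
  have hcs := card_add_self A
  rw [← hN] at hcs
  -- the bound for the exceptional pairs
  have hD : 2 * (DD A c).card ≤ N * (N - 1) := by
    by_cases hcase : (0 : ℚ) ∈ A ∧ c / 2 ∉ A
    · -- the second case
      obtain ⟨h0, hch⟩ := hcase
      have hi0 : E ∩ E.image (fun a => a - c / 2) = ∅ := by
        rw [eq_empty_iff_forall_notMem]
        intro x hx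
        have h1 := hinter hx
        rw [mem_singleton] at h1
        rw [mem_inter] at hx
        rw [h1] at hx
        exact hch (mem_filter.1 hx.1).1
      have hEN : 2 * E.card + 2 ≤ N := by
        have h1 := card_union_add_card_inter E (E.image (fun a => a - c / 2))
        rw [hi0, card_empty, hE2] at h1
        have h2 : E ∪ E.image (fun a => a - c / 2) ⊆ (A.erase c).erase 0 := by
          intro x hx
          rw [mem_erase, mem_erase]
          rw [mem_union] at hx
          rcases hx with hx | hx
          · have hx' := mem_filter.1 hx
            refine ⟨?_, ?_, hx'.1⟩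
            · rintro rfl
              have := hA0 _ hx'.2
              linarith
            · rintro rfl
              apply hch
              have h3 : x - x / 2 = x / 2 := by ring
              rw [← h3]
              exact hx'.2
          · obtain ⟨y, hy, rfl⟩ := mem_image.1 hx
            have hy' := mem_filter.1 hy
            refine ⟨?_, ?_, hy'.2⟩
            · intro h
              apply hch
              have h3 : c / 2 = y := by linarith
              rw [h3]
              exact hy'.1
            · intro h
              have := hAc y hy'.1
              linarith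
        have h3 := card_le_card h2
        have h4 : ((A.erase c).erase 0).card = N - 1 - 1 := by
          rw [card_erase_of_mem, card_erase_of_mem hc]
          rw [mem_erase]
          exact ⟨hc0.ne, h0⟩
        have h5 : 2 ≤ N := by
          have h6 : ({0, c} : Finset ℚ) ⊆ A := by
            intro x hx
            rw [mem_insert, mem_singleton] at hx
            rcases hx with rfl | rfl
            · exact h0
            · exact hc
          have h7 := card_le_card h6
          rw [card_pair hc0.ne] at h7
          exact h7
        omega
      have hsub : DD A c ⊆ (R ×ˢ E) ∪ ((A.erase c) ×ˢ {c}) := by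
        intro x hx
        unfold DD at hx
        rw [mem_filter, mem_product] at hx
        rw [mem_union]
        rcases hx.2 with h | h
        · left
          rw [mem_product]
          exact ⟨mem_filter.2 ⟨hx.1.1, h.1⟩, mem_filter.2 ⟨hx.1.2, h.2⟩⟩
        · right
          rw [mem_product, mem_erase, mem_singleton]
          have h1 := hAc _ h.1
          have h2 := hA0 _ h.2
          have h3 := hAc _ hx.1.2
          refine ⟨⟨?_, hx.1.1⟩, by linarith⟩
          intro h4
          linarith
      have h1 := (card_le_card hsub).trans (card_union_le _ _)
      rw [card_product, card_product, card_erase_of_mem hc, card_singleton, mul_one] at h1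
      obtain ⟨M, hM⟩ : ∃ M, N = M + 2 := ⟨N - 2, by omega⟩
      have hr : R.card ≤ M + 1 := by omega
      have he : 2 * E.card ≤ M := by omega
      have h2 : R.card * E.card * 2 ≤ (M + 1) * M := by
        calc R.card * E.card * 2 = R.card * (2 * E.card) := by ring
          _ ≤ (M + 1) * M := Nat.mul_le_mul hr he
      have h3 : A.card - 1 = M + 1 := by omega
      rw [h3] at h1
      rw [hM]
      have h4 : M + 2 - 1 = M + 1 := by omega
      rw [h4]
      nlinarith
    · -- the first case
      rw [not_and_or, not_not] at hcase
      have hsub : DD A c ⊆ (R ×ˢ E) ∪ (((A \ R).erase c) ×ˢ {c}) := by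
        intro x hx
        unfold DD at hx
        rw [mem_filter, mem_product] at hx
        rw [mem_union]
        rcases hx.2 with h | h
        · left
          rw [mem_product]
          exact ⟨mem_filter.2 ⟨hx.1.1, h.1⟩, mem_filter.2 ⟨hx.1.2, h.2⟩⟩
        · have h1 := hAc _ h.1
          have h2 := hA0 _ h.2
          have h3 := hAc _ hx.1.2
          have h4 : x.2 = c := by linarith
          have h5 : (0 : ℚ) ∈ A := by
            have h6 : x.2 - c = 0 := by linarith
            rw [← h6]
            exact h.2
          have h6 : c / 2 ∈ A := by
            rcases hcase with h7 | h7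
            · exact absurd h5 h7
            · exact h7
          by_cases h7 : x.1 ∈ R
          · left
            rw [mem_product]
            refine ⟨h7, mem_filter.2 ⟨hx.1.2, ?_⟩⟩
            rw [h4]
            have h8 : c - c / 2 = c / 2 := by ring
            rw [h8]
            exact h6
          · right
            rw [mem_product, mem_erase, mem_sdiff, mem_singleton]
            refine ⟨⟨?_, hx.1.1, h7⟩, h4⟩
            intro h8
            linarith
      have h1 := (card_le_card hsub).trans (card_union_le _ _)
      have h2 : ((A \ R).erase c).card + R.card + 1 ≤ N := by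
        have h3 : c ∈ A \ R := mem_sdiff.2 ⟨hc, hRc⟩
        have h9 : (A \ R).card + R.card = N := card_sdiff_add_card_eq_card (filter_subset _ _)
        have h10 : 0 < (A \ R).card := card_pos.2 ⟨c, h3⟩
        rw [card_erase_of_mem h3]
        omega
      rw [card_product, card_product, card_singleton, mul_one] at h1
      have h3 : (E ∩ E.image (fun a => a - c / 2)).card ≤ 1 := by
        have := card_le_card hinter
        rwa [card_singleton] at this
      have he : 2 * E.card ≤ N + 1 := by omega
      obtain ⟨M, hM⟩ : ∃ M, N = M + 2 := ⟨N - 2, by omega⟩
      have hr : R.card ≤ M := by omega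
      obtain ⟨t, ht⟩ : ∃ t, M = R.card + t := ⟨M - R.card, by omega⟩
      have h4 : ((A \ R).erase c).card ≤ t + 1 := by omega
      have h5 : R.card * E.card * 2 ≤ R.card * (M + 3) := by
        calc R.card * E.card * 2 = R.card * (2 * E.card) := by ring
          _ ≤ R.card * (M + 3) := Nat.mul_le_mul_left _ (by omega)
      rw [hM]
      have h6 : M + 2 - 1 = M + 1 := by omega
      rw [h6]
      have h7 : 2 * (DD A c).card ≤ R.card * (M + 3) + 2 * (t + 1) := by omega
      refine h7.trans ?_
      rw [ht]
      nlinarith
  obtain ⟨M, hM⟩ : ∃ M, N = M + 1 := ⟨N - 1, by omega⟩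
  rw [hM] at hD hcs hcount
  have h6 : M + 1 - 1 = M := by omega
  rw [h6] at hD
  nlinarith

end

/-- adding a large element -/
theorem add_large (B : Finset ℚ) (x : ℚ) (hB0 : ∀ b ∈ B, 0 ≤ b) (hx : ∀ b ∈ B, b + 1 / 2 ≤ x)
    (hx0 : 0 ≤ x) (h : (B + B).card ≤ (B * B + B).card) :
    (insert x B + insert x B).card ≤ (insert x B * insert x B + insert x B).card := by
  classical
  have h1 : insert x B + insert x B ⊆ (B + B) ∪ ({x} + insert x B) := by
    intro s hs
    obtain ⟨y, hy, z, hz, rfl⟩ := mem_add.mp hs
    rw [mem_union]
    rcases mem_insert.mp hy with rfl | hy'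
    · exact Or.inr (add_mem_add (mem_singleton_self _) hz)
    rcases mem_insert.mp hz with rfl | hz'
    · right
      rw [add_comm y z]
      exact add_mem_add (mem_singleton_self _) hy
    · exact Or.inl (add_mem_add hy' hz')
  have h2 : (insert x B + insert x B).card ≤ (B + B).card + (insert x B).card := by
    refine (card_le_card h1).trans ((card_union_le _ _).trans ?_)
    have := card_add_le (s := ({x} : Finset ℚ)) (t := insert x B)
    rw [card_singleton, one_mul] at this
    omega
  have h3 : ((insert x B).image (fun b => x * x + b)).card = (insert x B).card :=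
    card_image_of_injective _ (fun a b hab => by simpa using hab)
  have h4 : Disjoint (B * B + B) ((insert x B).image (fun b => x * x + b)) := by
    rw [disjoint_left]
    intro s hs hs'
    obtain ⟨w, hw, rfl⟩ := mem_image.mp hs'
    obtain ⟨yz, hyz, v, hv, hsum⟩ := mem_add.mp hs
    obtain ⟨y, hy, z, hz, rfl⟩ := mem_mul.mp hyz
    have hw0 : 0 ≤ w := by
      rcases mem_insert.mp hw with rfl | hw
      · exact hx0
      · exact hB0 w hw
    have h5 := hx y hy
    have h6 := hx z hz
    have h7 := hx v hv
    have h8 := hB0 y hy
    have h9 := hB0 z hz
    have h10 := hB0 v hv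
    have h11 : y * z ≤ (x - 1 / 2) * (x - 1 / 2) :=
      mul_le_mul (by linarith) (by linarith) h9 (by linarith)
    nlinarith
  have h5 : (B * B + B) ∪ ((insert x B).image (fun b => x * x + b)) ⊆
      insert x B * insert x B + insert x B := by
    intro s hs
    rcases mem_union.mp hs with hs | hs
    · exact add_subset_add (mul_subset_mul (subset_insert _ _) (subset_insert _ _))
        (subset_insert _ _) hs
    · obtain ⟨w, hw, rfl⟩ := mem_image.mp hs
      exact add_mem_add (mul_mem_mul (mem_insert_self _ _) (mem_insert_self _ _)) hw
  have h6 := card_le_card h5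
  rw [card_union_of_disjoint h4, h3] at h6
  omega

end Pool.Agent.Helper37.RH
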