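import Pool.Agent.Helper37.RH.Main
import Pool.Agent.Helper37.RG.Except

/-!
Nonnegative sets whose largest non-integral element has at least half of the common denominator.
-/

set_option autoImplicit false

namespace Pool.Agent.Helper37.RH

open Finset
open scoped Pointwise

/-- elements above `c` with gaps at least `1 / 2` do no harm -/
theorem top : ∀ n : ℕ, ∀ A : Finset ℚ, A.card = n → ∀ c ∈ A, (∀ a ∈ A, 0 ≤ a) →
    (∀ a ∈ A, a ≤ c → a.den ∣ 2 * c.den) →
    (∀ a ∈ A, ∀ b ∈ A, c ≤ a → a < b → a + 1 / 2 ≤ b) →
    (A + A).card ≤ (A * A + A).card := by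
  classical
  intro n
  induction n with
  | zero =>
    intro A hA c hc
    rw [card_eq_zero] at hA
    rw [hA] at hc
    exact absurd hc (notMem_empty c)
  | succ n ih =>
    intro A hA c hc hA0 hden hgap
    obtain ⟨x, hx, hmax⟩ := exists_max_image A id ⟨c, hc⟩
    simp only [id] at hmax
    rcases (hmax c hc).lt_or_eq with hcx | hcx
    swap
    · refine half hc hA0 (fun a ha => ?_) (fun a ha => ?_)
      · rw [hcx]
        exact hmax a ha
      · apply hden a ha
        rw [hcx]
        exact hmax a ha
    have hcB : c ∈ A.erase x := mem_erase.2 ⟨hcx.ne, hc⟩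
    have h1 := ih (A.erase x) (by rw [card_erase_of_mem hx]; omega) c hcB
      (fun a ha => hA0 a (mem_of_mem_erase ha))
      (fun a ha => hden a (mem_of_mem_erase ha))
      (fun a ha b hb => hgap a (mem_of_mem_erase ha) b (mem_of_mem_erase hb))
    have h2 := add_large (A.erase x) x (fun a ha => hA0 a (mem_of_mem_erase ha)) (by
      intro b hb
      rw [mem_erase] at hb
      have h3 := lt_of_le_of_ne (hmax b hb.2) hb.1
      rcases le_total c b with h4 | h4
      · exact hgap b hb.2 x hx h4 h3
      · have h5 := hgap c hc x hx le_rfl hcx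
        linarith) (hA0 x hx) h1
    rw [insert_erase hx] at h2
    exact h2

/-- nonnegative multiples of `1 / 4` -/
theorem quarter (A : Finset ℚ) (hA0 : ∀ a ∈ A, 0 ≤ a) (hA4 : ∀ a ∈ A, a.den ∣ 4) :
    (A + A).card ≤ (A * A + A).card := by
  classical
  by_cases hne : (A.filter (fun a => a.den ≠ 1)).Nonempty
  swap
  · rw [not_nonempty_iff_eq_empty] at hne
    refine Pool.Agent.Helper37.RG.dominated A 4 hA4 ?_
    intro b hb
    refine ⟨b, hb, le_rfl, ?_⟩
    have h1 : b.den = 1 := by
      by_contra h
      have : b ∈ A.filter (fun a => a.den ≠ 1) := mem_filter.2 ⟨hb, h⟩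
      rw [hne] at this
      exact absurd this (notMem_empty b)
    rw [h1]
    exact Nat.coprime_one_left _
  obtain ⟨c, hc, hmax⟩ := exists_max_image _ id hne
  rw [mem_filter] at hc
  simp only [id] at hmax
  have hint : ∀ a ∈ A, c < a → a.den = 1 := by
    intro a ha h
    by_contra h1
    have := hmax a (mem_filter.2 ⟨ha, h1⟩)
    linarith
  have hc124 : c.den = 2 ∨ c.den = 4 := by
    have h1 := hA4 c hc.1
    have h2 : c.den ≤ 4 := Nat.le_of_dvd (by norm_num) h1
    have h3 := hc.2
    have h4 := c.den_pos
    interval_cases h : c.den <;> simp_all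
  rcases hc124 with h2 | h4
  · -- a half
    refine top A.card A rfl c hc.1 hA0 (fun a ha _ => ?_) ?_
    · rw [h2]
      exact hA4 a ha
    · intro a ha b hb hca hab
      have hb1 := hint b hb (lt_of_le_of_lt hca hab)
      have ha2 : a.den ∣ 2 := by
        rcases hca.lt_or_eq with h | h
        · rw [hint a ha h]
          exact one_dvd 2
        · rw [← h, h2]
      obtain ⟨k, hk⟩ := int_mul ha2
      obtain ⟨m, hm⟩ := int_mul (x := b) (n := 2) (by rw [hb1]; exact one_dvd 2)
      push_cast at hk hm
      have h3 : (k : ℚ) < m := by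
        rw [← hk, ← hm]
        linarith
      have h5 : k < m := by exact_mod_cast h3
      have h6 : ((k + 1 : ℤ) : ℚ) ≤ m := by exact_mod_cast h5
      push_cast at h6
      linarith
  · -- a quarter
    refine Pool.Agent.Helper37.RG.dominated A 4 hA4 ?_
    intro b hb
    by_cases hb1 : b.den = 1
    · refine ⟨b, hb, le_rfl, ?_⟩
      rw [hb1]
      exact Nat.coprime_one_left _
    · refine ⟨c, hc.1, ?_, ?_⟩
      · rw [abs_of_nonneg (hA0 b hb), abs_of_nonneg (hA0 c hc.1)]
        exact hmax b (mem_filter.2 ⟨hb, hb1⟩)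
      · rw [h4]
        norm_num

end Pool.Agent.Helper37.RH
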